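import Pool.Agent.Lib.MP_524519_ag.DU5.PC.Iface

/-! # Module LXP of chapter PC: the length of `(P, x θ)` -/

set_option autoImplicit false

namespace Pool.Agent.DU5.PC

open Polynomial

namespace LXP

variable {K : Type} [Field K]

/-- An ideal of finite colength contains a power of `x`. -/
theorem exists_pow_mem (I : Ideal (PowerSeries K)[X])
    (h : Module.length K ((PowerSeries K)[X] ⧸ I) ≠ ⊤) :
    ∃ N : ℕ, C ((PowerSeries.X : PowerSeries K) ^ N) ∈ I := by
  have hfin : Module.Finite K ((PowerSeries K)[X] ⧸ I) := by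
    rw [Module.length_ne_top_iff, isFiniteLength_iff_isNoetherian_isArtinian] at h
    have := h.1
    infer_instance
  by_cases hJ : Ideal.comap (C : PowerSeries K →+* (PowerSeries K)[X]) I = ⊥
  · exfalso
    let φ : K[X] →ₗ[K] ((PowerSeries K)[X] ⧸ I) :=
      ((Ideal.Quotient.mkₐ K I).toLinearMap.comp
        ((IsScalarTower.toAlgHom K (PowerSeries K) (PowerSeries K)[X]).toLinearMap)).comp
        (Polynomial.coeToPowerSeries.algHom (R := K) K).toLinearMap
    have hφ : Function.Injective φ := by
      rw [injective_iff_map_eq_zero]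
      intro p hp
      have h1 : Ideal.Quotient.mk I (C (p : PowerSeries K)) = 0 := by
        simpa [φ, Polynomial.coeToPowerSeries.algHom_apply] using hp
      rw [Ideal.Quotient.eq_zero_iff_mem] at h1
      have h2 : (p : PowerSeries K) ∈ Ideal.comap (C : PowerSeries K →+* (PowerSeries K)[X]) I := h1
      rw [hJ, Ideal.mem_bot] at h2
      exact_mod_cast h2
    have : Module.Finite K K[X] := Module.Finite.of_injective φ hφ
    exact Polynomial.not_finite (R := K) inferInstance
  · obtain ⟨n, hn⟩ := IsDiscreteValuationRing.ideal_eq_span_pow_irreducible hJ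
      (PowerSeries.X_irreducible (R := K))
    refine ⟨n, ?_⟩
    have : (PowerSeries.X : PowerSeries K) ^ n ∈
        Ideal.comap (C : PowerSeries K →+* (PowerSeries K)[X]) I := by
      rw [hn]; exact Ideal.mem_span_singleton_self _
    exact this

/-- A nonzero constant is not a zero divisor modulo a monic polynomial. -/
theorem dvd_of_dvd_C_mul {P b : (PowerSeries K)[X]} (hP : P.Monic) {a : PowerSeries K}
    (ha : a ≠ 0) (h : P ∣ C a * b) : P ∣ b := by
  rw [← Polynomial.modByMonic_eq_zero_iff_dvd hP] at h ⊢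
  rw [← Polynomial.smul_eq_C_mul, Polynomial.smul_modByMonic, smul_eq_zero] at h
  exact h.resolve_left ha

/-- `K⟦x⟧[y] / (P, x)` has dimension `deg P`. -/
theorem length_X (P : (PowerSeries K)[X]) (d : ℕ) (hP : P.Monic) (hd : P.natDegree = d) :
    Module.length K ((PowerSeries K)[X] ⧸
      (Ideal.span {P, C PowerSeries.X} : Ideal (PowerSeries K)[X])) = d := by
  let φ : (PowerSeries K)[X] →+* K[X] := Polynomial.mapRingHom PowerSeries.constantCoeff
  let q : K[X] := φ P
  have hφs : Function.Surjective φ := Polynomial.map_surjective _ fun a =>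
    ⟨PowerSeries.C a, by simp⟩
  have hq : q.Monic := hP.map _
  have hqd : q.natDegree = d := by
    rw [← hd]; exact hP.natDegree_map _
  let ψ : (PowerSeries K)[X] →ₗ[K] (K[X] ⧸ (Ideal.span {q} : Ideal K[X])) :=
    { toFun := fun g => Ideal.Quotient.mk _ (φ g)
      map_add' := by intro a b; simp
      map_smul' := by
        intro a b
        have h1 : φ (a • b) = a • φ b := by
          rw [Algebra.smul_def, map_mul, Algebra.smul_def]
          congr 1
          simp [φ, Polynomial.algebraMap_apply]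
        rw [h1]
        rfl }
  have hψs : Function.Surjective ψ := fun y => by
    obtain ⟨z, rfl⟩ := Ideal.Quotient.mk_surjective y
    obtain ⟨w, rfl⟩ := hφs z
    exact ⟨w, rfl⟩
  have hker : LinearMap.ker ψ =
      (Ideal.span {P, C PowerSeries.X} : Ideal (PowerSeries K)[X]).restrictScalars K := by
    ext g
    rw [LinearMap.mem_ker, Submodule.restrictScalars_mem]
    change Ideal.Quotient.mk _ (φ g) = 0 ↔ _
    rw [Ideal.Quotient.eq_zero_iff_mem, Ideal.mem_span_singleton]
    constructor
    · rintro ⟨b, hb⟩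
      obtain ⟨c, rfl⟩ := hφs b
      have h1 : g - P * c ∈ RingHom.ker φ := by
        rw [RingHom.mem_ker, map_sub, map_mul, hb]; simp [q]
      rw [Polynomial.ker_mapRingHom, Ideal.mem_map_C_iff] at h1
      have h2 : C (PowerSeries.X : PowerSeries K) ∣ g - P * c := by
        rw [Polynomial.C_dvd_iff_dvd_coeff]
        intro i
        rw [PowerSeries.X_dvd_iff]
        exact RingHom.mem_ker.1 (h1 i)
      obtain ⟨e, he⟩ := h2
      rw [Ideal.mem_span_pair]
      exact ⟨c, e, by rw [mul_comm c, mul_comm e, ← he]; ring⟩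
    · intro h
      rw [Ideal.mem_span_pair] at h
      obtain ⟨a, b, rfl⟩ := h
      refine ⟨φ a, ?_⟩
      simp [φ, q, mul_comm]
  rw [← (Submodule.Quotient.restrictScalarsEquiv K _).length_eq, ← hker,
    (LinearMap.quotKerEquivOfSurjective ψ hψs).length_eq]
  have hq0 : q ≠ 0 := hq.ne_zero
  have : Module.Finite K (K[X] ⧸ (Ideal.span {q} : Ideal K[X])) := hq.finite_quotient
  rw [Module.length_eq_finrank, finrank_quotient_span_eq_natDegree, hqd]

end LXP

theorem lxp : LxpStatement := by
  intro K _ P d hd0 hP hd θ hfin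
  set I0 : Ideal (PowerSeries K)[X] := Ideal.span {P, C PowerSeries.X} with hI0
  set I1 : Ideal (PowerSeries K)[X] := Ideal.span {P, C PowerSeries.X * θ} with hI1
  set I2 : Ideal (PowerSeries K)[X] := Ideal.span {P, θ} with hI2
  have h01 : I0 ≤ Submodule.comap (LinearMap.mulLeft (PowerSeries K)[X] θ) I1 := by
    intro a ha
    rw [hI0, Ideal.mem_span_pair] at ha
    obtain ⟨u, v, rfl⟩ := ha
    rw [Submodule.mem_comap, LinearMap.mulLeft_apply, hI1, Ideal.mem_span_pair]
    exact ⟨θ * u, v, by ring⟩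
  have h12 : I1 ≤ I2 := by
    intro a ha
    rw [hI1, Ideal.mem_span_pair] at ha
    obtain ⟨u, v, rfl⟩ := ha
    rw [hI2, Ideal.mem_span_pair]
    exact ⟨u, v * C PowerSeries.X, by ring⟩
  have hnz : ∀ b : (PowerSeries K)[X], P ∣ θ * b → P ∣ b := by
    intro b hb
    obtain ⟨N, hN⟩ := LXP.exists_pow_mem I2 hfin
    rw [hI2, Ideal.mem_span_pair] at hN
    obtain ⟨u, v, huv⟩ := hN
    refine LXP.dvd_of_dvd_C_mul hP (a := PowerSeries.X ^ N) (pow_ne_zero _ PowerSeries.X_ne_zero) ?_
    rw [← huv, add_mul]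
    refine dvd_add ⟨u * b, by ring⟩ ?_
    rw [mul_assoc]
    exact dvd_mul_of_dvd_right hb _
  let f : ((PowerSeries K)[X] ⧸ I0) →ₗ[K] ((PowerSeries K)[X] ⧸ I1) :=
    (Submodule.mapQ I0 I1 (LinearMap.mulLeft (PowerSeries K)[X] θ) h01).restrictScalars K
  let g : ((PowerSeries K)[X] ⧸ I1) →ₗ[K] ((PowerSeries K)[X] ⧸ I2) := (Submodule.factor h12).restrictScalars K
  have hfmk : ∀ a : (PowerSeries K)[X], f (Submodule.Quotient.mk a) = Submodule.Quotient.mk (θ * a) := fun a => rfl
  have hgmk : ∀ a : (PowerSeries K)[X], g (Submodule.Quotient.mk a) = Submodule.Quotient.mk a := fun a => rfl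
  have hf : Function.Injective f := by
    rw [injective_iff_map_eq_zero]
    intro a ha
    obtain ⟨a, rfl⟩ := Submodule.Quotient.mk_surjective _ a
    rw [hfmk, Submodule.Quotient.mk_eq_zero, hI1, Ideal.mem_span_pair] at ha
    rw [Submodule.Quotient.mk_eq_zero, hI0, Ideal.mem_span_pair]
    obtain ⟨u, v, huv⟩ := ha
    obtain ⟨w, hw⟩ := hnz (a - v * C PowerSeries.X) ⟨u, by
      rw [mul_sub, ← huv]; ring⟩
    exact ⟨w, v, by rw [mul_comm w, ← hw]; ring⟩
  have hg : Function.Surjective g := by
    intro a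
    obtain ⟨a, rfl⟩ := Submodule.Quotient.mk_surjective _ a
    exact ⟨Submodule.Quotient.mk a, hgmk a⟩
  have hex : Function.Exact f g := by
    intro a
    obtain ⟨a, rfl⟩ := Submodule.Quotient.mk_surjective _ a
    rw [hgmk, Submodule.Quotient.mk_eq_zero]
    constructor
    · intro h
      rw [hI2, Ideal.mem_span_pair] at h
      obtain ⟨u, v, rfl⟩ := h
      refine ⟨Submodule.Quotient.mk v, ?_⟩
      rw [hfmk, Submodule.Quotient.eq, hI1, Ideal.mem_span_pair]
      exact ⟨-u, 0, by ring⟩
    · rintro ⟨b, hb⟩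
      obtain ⟨b, rfl⟩ := Submodule.Quotient.mk_surjective _ b
      rw [hfmk, Submodule.Quotient.eq] at hb
      have h1 := h12 hb
      have h2 : θ * b ∈ I2 := by
        rw [hI2]
        exact Ideal.mul_mem_right _ _ (Ideal.subset_span (by simp))
      have h3 := I2.sub_mem h2 h1
      simpa using h3
  rw [Module.length_eq_add_of_exact f g hf hg hex, LXP.length_X P d hP hd, add_comm]

end Pool.Agent.DU5.PC
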